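import Pool.Agent.Work.Monodromy_helper35.NV3b

/-!
# Block NV3, final part
-/

set_option linter.unusedSectionVars false

namespace Pool.Agent.Mono.NV3

open MvPolynomial

section fin
variable {ι κ : Type} [Fintype ι] [Fintype κ] [DecidableEq ι] [DecidableEq κ]
  (l : κ → ι → ℂ) (lam : κ → ℂ)

/-- `Q` in the field -/
noncomputable def QK : FF ℂ ι := ∏ k, Lk l k

theorem QK_ne_zero (hl : ∀ k, l k ≠ 0) : QK l ≠ 0 :=
  Finset.prod_ne_zero_iff.2 fun k _ => Lk_ne_zero l hl k

theorem PhiH_Q : PhiH (∏ k, linF (MvPolynomial κ ℂ) (l k)) = C (QK l) := by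
  unfold QK
  rw [map_prod, map_prod]
  refine Finset.prod_congr rfl fun k _ => ?_
  rw [PhiH_linF]; rfl

theorem dF_Qinv (hl : ∀ k, l k ≠ 0) (i : ι) (r : ℕ) :
    dF ℂ i ((QK l ^ r)⁻¹) * QK l ^ (r + 1) = -(r : FF ℂ ι) * dF ℂ i (QK l) := by
  have h0 := QK_ne_zero l hl
  rw [Derivation.leibniz_inv, Derivation.leibniz_pow]
  rcases Nat.eq_zero_or_pos r with hr | hr
  · subst hr; simp
  · obtain ⟨s, rfl⟩ : ∃ s, r = s + 1 := ⟨r - 1, by omega⟩
    simp only [smul_eq_mul, nsmul_eq_mul, Nat.add_sub_cancel]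
    field_simp
    ring

theorem image_of_polyForm (hl : ∀ k, l k ≠ 0) (N : ι → κ → ℂ)
    (hN : ∀ i j, ∑ k, N j k * l k i = if i = j then 1 else 0) (c : MvPolynomial κ ℂ)
    (hc : PolyForm l lam c) : ∃ h : ι → MvPolynomial κ (FF ℂ ι),
      map (algebraMap ℂ (FF ℂ ι)) c = ∑ i, th (dat l lam hl N hN) i (h i) := by
  obtain ⟨r, q, e⟩ := hc
  refine ⟨fun i => C ((QK l ^ r)⁻¹) * PhiH (q i), ?_⟩
  have hQ0 : (C (QK l ^ (r + 1)) : MvPolynomial κ (FF ℂ ι)) ≠ 0 := by
    rw [Ne, MvPolynomial.C_eq_zero]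
    exact pow_ne_zero _ (QK_ne_zero l hl)
  apply mul_right_cancel₀ hQ0
  have e1 := congrArg PhiH e
  simp only [map_mul, map_pow, map_sum, map_sub, map_add, map_natCast, PhiH_C, PhiH_Q,
    PhiH_pderiv] at e1
  rw [C_pow, e1, Finset.sum_mul]
  refine Finset.sum_congr rfl fun i _ => ?_
  rw [th_apply]
  change _ = (cd (dF ℂ i) (C ((QK l ^ r)⁻¹) * PhiH (q i)) +
    (om l i + C (kk l lam i)) * (C ((QK l ^ r)⁻¹) * PhiH (q i))) * C (QK l) ^ (r + 1)
  rw [cd_mul]
  have f1 : (C (dF ℂ i (QK l ^ r)⁻¹) * C (QK l) ^ (r + 1) : MvPolynomial κ (FF ℂ ι)) =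
      -(r : MvPolynomial κ (FF ℂ ι)) * C (dF ℂ i (QK l)) := by
    rw [← C_pow, ← C_mul, dF_Qinv l hl, C_mul, C_neg]
    rfl
  have f2 : (C ((QK l ^ r)⁻¹) * C (QK l) ^ (r + 1) : MvPolynomial κ (FF ℂ ι)) = C (QK l) := by
    have h0 := QK_ne_zero l hl
    rw [← C_pow, ← C_mul]
    congr 1
    rw [pow_succ]
    field_simp
  have f3 : (om l i + C (kk l lam i)) * C (QK l) =
      ∑ k, (map (algebraMap ℂ (FF ℂ ι)) (C (lam k)) + map (algebraMap ℂ (FF ℂ ι)) (X k)) *
        (cd (dF ℂ i) (PhiH (linF (MvPolynomial κ ℂ) (l k))) *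
          PhiH (∏ k' ∈ Finset.univ.erase k, linF (MvPolynomial κ ℂ) (l k'))) := by
    unfold om kk
    rw [map_sum, ← Finset.sum_add_distrib, Finset.sum_mul]
    refine Finset.sum_congr rfl fun k _ => ?_
    rw [PhiH_linF, cd_C]
    have g1 : dF ℂ i (toF ℂ (linF ℂ (l k))) = cst (l k i) := dF_Lk l i k
    rw [g1, map_prod]
    simp only [PhiH_linF]
    rw [← map_prod]
    have g2 : QK l = Lk l k * ∏ k' ∈ Finset.univ.erase k, toF ℂ (linF ℂ (l k')) := by
      unfold QK
      rw [← Finset.mul_prod_erase _ _ (Finset.mem_univ k)]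
      rfl
    rw [g2, map_C, map_X]
    have h0 := Lk_ne_zero l hl k
    have g3 : (C (cst (l k i)) : MvPolynomial κ (FF ℂ ι)) = C (cst (l k i) / Lk l k) * C (Lk l k) := by
      rw [← C_mul]; congr 1; field_simp
    rw [g3]
    have g4 : (C (algebraMap ℂ (FF ℂ ι) (lam k)) : MvPolynomial κ (FF ℂ ι)) = C (cst (lam k)) := rfl
    rw [g4]
    simp only [C_mul]
    ring
  have e2 : (cd (dF ℂ i)) (C (QK l)) = (C (dF ℂ i (QK l)) : MvPolynomial κ (FF ℂ ι)) := cd_C _ _
  rw [e2]
  have e3 : (cd (dF ℂ i)) (C (QK l ^ r)⁻¹) = (C (dF ℂ i (QK l ^ r)⁻¹) : MvPolynomial κ (FF ℂ ι)) :=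
    cd_C _ _
  rw [e3, ← f3]
  linear_combination (-PhiH (q i)) * f1 + (-(cd (dF ℂ i) (PhiH (q i))) -
    (om l i + C (kk l lam i)) * PhiH (q i)) * f2

/-- Euler identity -/
theorem euler (hl : ∀ k, l k ≠ 0) (N : ι → κ → ℂ)
    (hN : ∀ i j, ∑ k, N j k * l k i = if i = j then 1 else 0)
    (hlam : ∑ k, lam k = -(Fintype.card ι : ℂ)) (c : MvPolynomial κ ℂ) :
    ∑ i, th (dat l lam hl N hN) i (C (toF ℂ (X i)) * map (algebraMap ℂ (FF ℂ ι)) c) =
      map (algebraMap ℂ (FF ℂ ι)) ((∑ k, X k) * c) := by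
  have h1 : ∀ i, th (dat l lam hl N hN) i (C (toF ℂ (X i)) * map (algebraMap ℂ (FF ℂ ι)) c) =
      (1 + (om l i + C (kk l lam i)) * C (toF ℂ (X i))) * map (algebraMap ℂ (FF ℂ ι)) c := by
    intro i
    rw [th_apply]
    change cd (dF ℂ i) (C (toF ℂ (X i)) * map (algebraMap ℂ (FF ℂ ι)) c) +
      (om l i + C (kk l lam i)) * (C (toF ℂ (X i)) * map (algebraMap ℂ (FF ℂ ι)) c) = _
    rw [cd_mul, cd_map, cd_C, dF_toF, pderiv_X_self]
    have : toF ℂ (1 : MvPolynomial ι ℂ) = 1 := by unfold toF; rw [map_one]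
    rw [this, C_1]
    ring
  simp only [h1]
  rw [← Finset.sum_mul, map_mul, map_sum]
  congr 1
  rw [Finset.sum_add_distrib]
  have h2 : ∀ k, ∑ i, cst (l k i) * toF ℂ (X i : MvPolynomial ι ℂ) = Lk l k := by
    intro k
    unfold Lk linF
    have : toF ℂ (∑ i, C (algebraMap ℂ ℂ (l k i)) * X i) =
        ∑ i, toF ℂ (C (l k i) : MvPolynomial ι ℂ) * toF ℂ (X i : MvPolynomial ι ℂ) := by
      unfold toF
      rw [map_sum]
      refine Finset.sum_congr rfl fun i _ => ?_
      rw [map_mul]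
      rfl
    rw [this]
    refine Finset.sum_congr rfl fun i _ => ?_
    rw [toF_C]
  have h3 : ∀ k, ∑ i, cst (l k i) / Lk l k * toF ℂ (X i : MvPolynomial ι ℂ) = 1 := by
    intro k
    have h0 := Lk_ne_zero l hl k
    have : ∀ i, cst (l k i) / Lk l k * toF ℂ (X i : MvPolynomial ι ℂ) =
        (cst (l k i) * toF ℂ (X i : MvPolynomial ι ℂ)) / Lk l k := fun i => by ring
    simp only [this]
    rw [← Finset.sum_div, h2, div_self h0]
  have h4 : ∑ i, om l i * (C (toF ℂ (X i)) : MvPolynomial κ (FF ℂ ι)) = ∑ k, X k := by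
    unfold om
    simp only [Finset.sum_mul]
    rw [Finset.sum_comm]
    refine Finset.sum_congr rfl fun k _ => ?_
    have : ∀ i, (C (cst (l k i) / Lk l k) * X k * C (toF ℂ (X i)) : MvPolynomial κ (FF ℂ ι)) =
        C (cst (l k i) / Lk l k * toF ℂ (X i)) * X k := fun i => by rw [C_mul]; ring
    simp only [this]
    rw [← Finset.sum_mul, ← map_sum, h3, C_1, one_mul]
  have h5 : ∑ i, kk l lam i * toF ℂ (X i : MvPolynomial ι ℂ) = -(Fintype.card ι : FF ℂ ι) := by
    unfold kk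
    simp only [Finset.sum_mul]
    rw [Finset.sum_comm]
    have : ∀ k, ∑ i, cst (lam k) * (cst (l k i) / Lk l k) * toF ℂ (X i : MvPolynomial ι ℂ) =
        cst (lam k) := by
      intro k
      have h6 : ∀ i, cst (lam k) * (cst (l k i) / Lk l k) * toF ℂ (X i : MvPolynomial ι ℂ) =
        cst (lam k) * (cst (l k i) / Lk l k * toF ℂ (X i : MvPolynomial ι ℂ)) := fun i => by ring
      simp only [h6]
      rw [← Finset.mul_sum, h3, mul_one]
    simp only [this]
    unfold cst
    rw [← map_sum, hlam, map_neg, map_natCast]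
  simp only [add_mul]
  rw [Finset.sum_add_distrib, h4]
  have h7 : ∑ i, (C (kk l lam i) * C (toF ℂ (X i)) : MvPolynomial κ (FF ℂ ι)) =
      -(Fintype.card ι : MvPolynomial κ (FF ℂ ι)) := by
    simp only [← C_mul]
    rw [← map_sum, h5, C_neg]
    rfl
  rw [h7]
  simp only [Finset.sum_const, Finset.card_univ, nsmul_eq_mul, mul_one, map_X]
  ring

/-- the relation `∑ ω_i g_i = c_r` implies that `c_r` vanishes on the generic points -/
theorem vanish (hl : ∀ k, l k ≠ 0) (cr : MvPolynomial κ ℂ) (g : ι → MvPolynomial κ (FF ℂ ι))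
    (e : map (algebraMap ℂ (FF ℂ ι)) cr = ∑ i, om l i * g i) (y : ι → ℂ) (c : κ → ℂ)
    (hc : ∀ i, ∑ k, c k * l k i = 0) : eval (fun k => c k * ∑ i, l k i * y i) cr = 0 := by
  have e1 := congrArg (eval (fun k => cst (c k) * Lk l k)) e
  rw [map_sum] at e1
  have h1 : ∀ i, eval (fun k => cst (c k) * Lk l k) (om l i * g i) = 0 := by
    intro i
    rw [map_mul]
    have : eval (fun k => cst (c k) * Lk l k) (om l i) = 0 := by
      unfold om
      rw [map_sum]
      simp only [map_mul, eval_C, eval_X]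
      have h2 : ∀ k, cst (l k i) / Lk l k * (cst (c k) * Lk l k) = cst (c k * l k i) := by
        intro k
        have h0 := Lk_ne_zero l hl k
        unfold cst
        rw [map_mul]
        field_simp
      simp only [h2]
      unfold cst
      rw [← map_sum, hc, map_zero]
    rw [this, zero_mul]
  rw [Finset.sum_eq_zero fun i _ => h1 i] at e1
  -- go back to polynomials
  have h3 : aeval (fun k => C (c k) * linF ℂ (l k)) cr = (0 : MvPolynomial ι ℂ) := by
    apply toF_inj
    have h4 : toF ℂ (aeval (fun k => C (c k) * linF ℂ (l k)) cr) =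
        eval (fun k => cst (c k) * Lk l k) (map (algebraMap ℂ (FF ℂ ι)) cr) := by
      rw [eval_map, ← aeval_def]
      have h5 : ((Algebra.algHom ℂ (MvPolynomial ι ℂ) (FF ℂ ι)).comp
          (aeval (fun k => C (c k) * linF ℂ (l k)))) cr = aeval (fun k => cst (c k) * Lk l k) cr := by
        rw [comp_aeval]
        congr 2
        funext k
        change toF ℂ (C (c k) * linF ℂ (l k)) = _
        have : toF ℂ (C (c k) * linF ℂ (l k)) =
            toF ℂ (C (c k) : MvPolynomial ι ℂ) * toF ℂ (linF ℂ (l k)) := by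
          unfold toF; rw [map_mul]
        rw [this, toF_C]
        rfl
      exact h5
    rw [h4, e1]
    unfold toF
    rw [map_zero]
  have h6 := congrArg (eval y) h3
  rw [map_zero] at h6
  rw [← h6]
  rw [← MvPolynomial.coe_aeval_eq_eval, ← MvPolynomial.coe_aeval_eq_eval]
  change aeval _ cr = (aeval y) (aeval _ cr)
  rw [← AlgHom.comp_apply, comp_aeval]
  congr 2
  funext k
  rw [map_mul]
  unfold linF
  rw [map_sum]
  simp

end fin

end Pool.Agent.Mono.NV3

namespace Pool.Agent.Mono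

open MvPolynomial NV3

theorem NV3.main {ι κ : Type} [Fintype ι] [Fintype κ] [DecidableEq ι] [DecidableEq κ]
    (l : κ → ι → ℂ) (lam : κ → ℂ) (hl : ∀ k, l k ≠ 0) (N : ι → κ → ℂ)
    (hN : ∀ i j, ∑ k, N j k * l k i = if i = j then 1 else 0)
    (hlam : ∑ k, lam k = -(Fintype.card ι : ℂ)) (hD : Dense ι κ l) : ∀ (n : ℕ)
    (c : MvPolynomial κ ℂ) (_ : ∀ s, n ≤ s → homogeneousComponent s c = 0)
    (h : ι → MvPolynomial κ (FF ℂ ι))
    (_ : map (algebraMap ℂ (FF ℂ ι)) c = ∑ i, th (dat l lam hl N hN) i (h i)),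
    constantCoeff c = 0 := by
  have hmap : ∀ (s : ℕ) (c : MvPolynomial κ ℂ),
      homogeneousComponent s (map (algebraMap ℂ (FF ℂ ι)) c) =
        map (algebraMap ℂ (FF ℂ ι)) (homogeneousComponent s c) := by
    intro s c
    ext a
    rw [coeff_homogeneousComponent, coeff_map, coeff_map, coeff_homogeneousComponent]
    split_ifs
    · rfl
    · rw [map_zero]
  have hinj : Function.Injective (algebraMap ℂ (FF ℂ ι)) := (algebraMap ℂ (FF ℂ ι)).injective
  intro n
  induction n with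
  | zero =>
    intro c hc h e
    have h0 := hc 0 le_rfl
    rw [homogeneousComponent_zero, MvPolynomial.C_eq_zero] at h0
    exact h0
  | succ n ih =>
    intro c hc h e
    rcases Nat.eq_zero_or_pos n with hn | hn
    · subst hn
      have h1 := red0 (dat l lam hl N hN) _ (fun s hs => by
        rw [hmap, hc s (by omega), map_zero]) h e
      rw [hmap] at h1
      have h2 := map_injective _ hinj (h1.trans (map_zero _).symm)
      rw [homogeneousComponent_zero, MvPolynomial.C_eq_zero] at h2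
      exact h2
    · obtain ⟨r, rfl⟩ : ∃ r, n = r + 1 := ⟨n - 1, by omega⟩
      obtain ⟨g, hg⟩ := redpos (dat l lam hl N hN) _ r (fun s hs => by
        rw [hmap, hc s (by omega), map_zero]) h e
      rw [hmap] at hg
      obtain ⟨q, hq⟩ := sum_dvd (homogeneousComponent (r + 1) c) (hD _ (vanish l hl _ g hg))
      have h3 := ih (c - homogeneousComponent (r + 1) c) (fun s hs => by
        rw [map_sub, homogeneousComponent_of_mem (homogeneousComponent_mem (r + 1) c)]
        rcases Nat.eq_or_lt_of_le hs with h | h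
        · subst h; rw [if_pos rfl, sub_self]
        · rw [if_neg (by omega), sub_zero]; exact hc s (by omega))
        (fun i => h i - C (toF ℂ (X i)) * map (algebraMap ℂ (FF ℂ ι)) q) (by
        rw [map_sub, e, hq, ← euler l lam hl N hN hlam q, ← Finset.sum_sub_distrib]
        refine Finset.sum_congr rfl fun i _ => ?_
        rw [map_sub])
      rw [map_sub, hq, map_mul, map_sum] at h3
      simpa using h3

theorem stmt_NV3 : Stmt_NV3 := by
  intro ι κ _ _ _ _ l lam hl hs hlam hD c hc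
  obtain ⟨N, hN⟩ := exists_dual l hs
  obtain ⟨h, e⟩ := image_of_polyForm l lam hl N hN c hc
  exact NV3.main l lam hl N hN hlam hD (c.totalDegree + 1) c
    (fun s hs => homogeneousComponent_eq_zero s c (by omega)) h e

end Pool.Agent.Mono
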