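import Mathlib

/-!
# Koszul exactness for independent linear forms (block NV3)
-/

namespace Pool.Agent.Mono.NV3

open MvPolynomial

variable {K ι κ : Type} [Field K] [CharZero K] [Fintype ι] [DecidableEq ι]

/-- the Euler field in the directions of `ω` -/
noncomputable def EE (ω : ι → MvPolynomial κ K)
    (δ : ι → Derivation K (MvPolynomial κ K) (MvPolynomial κ K)) :
    Derivation K (MvPolynomial κ K) (MvPolynomial κ K) := ∑ j, ω j • δ j

omit [CharZero K] [DecidableEq ι] in
theorem EE_apply (ω : ι → MvPolynomial κ K)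
    (δ : ι → Derivation K (MvPolynomial κ K) (MvPolynomial κ K)) (p : MvPolynomial κ K) :
    EE ω δ p = ∑ j, ω j * δ j p := by
  unfold EE
  rw [← Derivation.coeFnAddMonoidHom_apply, map_sum, Finset.sum_apply]
  rfl

variable (ω : ι → MvPolynomial κ K) (δ : ι → Derivation K (MvPolynomial κ K) (MvPolynomial κ K))
  (M : ι → κ → K) (hδ : ∀ j k, δ j (X k) = C (M j k))
  (hω : ∀ i j, δ j (ω i) = if i = j then 1 else 0)

include hω in
omit [CharZero K] in
theorem EE_omega (i : ι) : EE ω δ (ω i) = ω i := by
  rw [EE_apply]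
  simp [hω]

/-- `E` as an endomorphism -/
noncomputable def En : Module.End K (MvPolynomial κ K) := (EE ω δ : _ →ₗ[K] _)

omit [CharZero K] [DecidableEq ι] in
theorem En_apply (p : MvPolynomial κ K) : En ω δ p = EE ω δ p := rfl

include hδ hω in
omit [CharZero K] in
theorem iSup_eig : (⨆ e : ℕ, (En ω δ).eigenspace (e : K)) = ⊤ := by
  rw [eq_top_iff]
  rintro p -
  induction p using MvPolynomial.induction_on with
  | C a =>
    apply Submodule.mem_iSup_of_mem 0
    rw [Module.End.mem_eigenspace_iff]
    rw [En_apply, ← MvPolynomial.algebraMap_eq, Derivation.map_algebraMap]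
    simp
  | add p q hp hq => exact Submodule.add_mem _ hp hq
  | mul_X p k hp =>
    induction hp using Submodule.iSup_induction' with
    | mem e f hf =>
      rw [Module.End.mem_eigenspace_iff, En_apply] at hf
      have hu : EE ω δ (EE ω δ (X k)) = EE ω δ (X k) := by
        conv_lhs => rw [EE_apply ω δ (X k)]
        rw [map_sum]
        simp only [hδ, Derivation.leibniz, EE_omega ω δ hω, smul_eq_mul]
        rw [EE_apply]
        refine Finset.sum_congr rfl fun j _ => ?_
        rw [← MvPolynomial.algebraMap_eq, Derivation.map_algebraMap, hδ]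
        rw [MvPolynomial.algebraMap_eq]
        ring
      have e1 : f * X k = f * EE ω δ (X k) + f * (X k - EE ω δ (X k)) := by ring
      rw [e1]
      refine Submodule.add_mem _ ?_ ?_
      · apply Submodule.mem_iSup_of_mem (e + 1)
        rw [Module.End.mem_eigenspace_iff, En_apply, Derivation.leibniz, hu, hf]
        simp only [smul_eq_mul, MvPolynomial.smul_eq_C_mul, Nat.cast_add, Nat.cast_one, map_add,
          map_one]
        ring
      · apply Submodule.mem_iSup_of_mem e
        rw [Module.End.mem_eigenspace_iff, En_apply, Derivation.leibniz, map_sub, hu, hf]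
        simp only [smul_eq_mul, MvPolynomial.smul_eq_C_mul]
        ring
    | zero => rw [zero_mul]; exact Submodule.zero_mem _
    | add p q _ _ hp hq => rw [add_mul]; exact Submodule.add_mem _ hp hq

include hδ hω in
theorem surj_two : Function.Surjective (En ω δ + (2 : K) • (1 : Module.End K (MvPolynomial κ K))) := by
  rw [← LinearMap.range_eq_top, eq_top_iff, ← iSup_eig ω δ M hδ hω]
  refine iSup_le fun e p hp => ?_
  rw [Module.End.mem_eigenspace_iff] at hp
  have h2 : ((e : K) + 2) ≠ 0 := by
    have h := Nat.cast_ne_zero (R := K).2 (Nat.succ_ne_zero (e + 1))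
    have e1 : (((e + 1).succ : ℕ) : K) = (e : K) + 2 := by push_cast; ring
    rwa [e1] at h
  refine ⟨((e : K) + 2)⁻¹ • p, ?_⟩
  rw [LinearMap.add_apply, map_smul, hp]
  simp only [LinearMap.smul_apply, Module.End.one_apply]
  rw [smul_smul, smul_smul, ← add_smul]
  have : ((e : K) + 2)⁻¹ * e + 2 * ((e : K) + 2)⁻¹ = 1 := by field_simp
  rw [this, one_smul]

include hδ hω in
theorem inj_one (p : MvPolynomial κ K) (hp : EE ω δ p + p = 0) : p = 0 := by
  have h1 : p ∈ (En ω δ).eigenspace (-1 : K) := by
    rw [Module.End.mem_eigenspace_iff, En_apply, neg_one_smul]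
    exact eq_neg_of_add_eq_zero_left hp
  have h2 := (En ω δ).eigenspaces_iSupIndep (-1 : K)
  have h3 : (⨆ e : ℕ, (En ω δ).eigenspace (e : K)) ≤
      ⨆ j, ⨆ (_ : j ≠ (-1 : K)), (En ω δ).eigenspace j := by
    refine iSup_le fun e => ?_
    refine le_iSup₂_of_le (e : K) ?_ le_rfl
    intro h
    have : ((e : K) + 1) ≠ 0 := Nat.cast_add_one_ne_zero e
    rw [h] at this
    simp at this
  rw [iSup_eig ω δ M hδ hω, top_le_iff] at h3
  rw [h3] at h2
  have h4 : (En ω δ).eigenspace (-1 : K) = ⊥ := disjoint_top.1 h2
  rw [h4] at h1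
  simpa using h1

include hδ hω in
theorem koszul (h : ι → MvPolynomial κ K) (hh : ∑ i, ω i * h i = 0) :
    ∃ A : ι → ι → MvPolynomial κ K, (∀ i j, A i j = -A j i) ∧ ∀ i, h i = ∑ j, ω j * A i j := by
  obtain ⟨G, hG⟩ := LinearMap.exists_rightInverse_of_surjective _
    (LinearMap.range_eq_top.2 (surj_two ω δ M hδ hω))
  have hG' : ∀ p, EE ω δ (G p) + 2 * G p = p := by
    intro p
    have := LinearMap.congr_fun hG p
    simp only [LinearMap.comp_apply, LinearMap.add_apply, LinearMap.smul_apply,
      Module.End.one_apply, LinearMap.id_apply, En_apply] at this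
    rw [MvPolynomial.smul_eq_C_mul] at this
    have e : (C (2 : K) : MvPolynomial κ K) = 2 := by
      rw [← MvPolynomial.algebraMap_eq, map_ofNat]
    rw [e] at this
    exact this
  refine ⟨fun i j => G (δ j (h i) - δ i (h j)), ?_, ?_⟩
  · intro i j
    rw [← map_neg, neg_sub]
  · intro i
    have key : EE ω δ (h i) + h i = ∑ j, ω j * (δ j (h i) - δ i (h j)) := by
      have e1 : δ i (∑ j, ω j * h j) = 0 := by rw [hh, map_zero]
      rw [map_sum] at e1
      simp only [Derivation.leibniz, hω, smul_eq_mul] at e1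
      rw [Finset.sum_add_distrib] at e1
      have e2 : ∑ x, h x * (if x = i then (1 : MvPolynomial κ K) else 0) = h i := by simp
      rw [e2] at e1
      rw [EE_apply]
      simp only [mul_sub]
      rw [Finset.sum_sub_distrib, ← sub_eq_zero]
      linear_combination e1
    have h0 := inj_one ω δ M hδ hω (h i - ∑ j, ω j * G (δ j (h i) - δ i (h j))) (by
      rw [map_sub, map_sum]
      simp only [Derivation.leibniz, EE_omega ω δ hω, smul_eq_mul]
      have e3 : ∑ j, (ω j * EE ω δ (G (δ j (h i) - δ i (h j))) + G (δ j (h i) - δ i (h j)) * ω j) +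
          ∑ j, ω j * G (δ j (h i) - δ i (h j)) = ∑ j, ω j * (δ j (h i) - δ i (h j)) := by
        rw [← Finset.sum_add_distrib]
        refine Finset.sum_congr rfl fun j _ => ?_
        have := hG' (δ j (h i) - δ i (h j))
        linear_combination (ω j) * this
      rw [← key] at e3
      linear_combination -e3)
    rw [sub_eq_zero] at h0
    exact h0

end Pool.Agent.Mono.NV3
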