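import Pool.Agent.Work.Monodromy.Interface
import Pool.Agent.Work.Monodromy_helper35.Koszul

/-!
# Block NV3, part a: coefficientwise derivations and degree reduction
-/

namespace Pool.Agent.Mono.NV3

open MvPolynomial

section cder
variable {K κ : Type} [Field K] [Algebra ℂ K]

/-- coefficientwise derivation -/
noncomputable def cd (D : Derivation ℂ K K) : MvPolynomial κ K →+ MvPolynomial κ K where
  toFun p := ∑ a ∈ p.support, monomial a (D (coeff a p))
  map_zero' := by simp
  map_add' p q := by
    classical
    have key : ∀ (p : MvPolynomial κ K) (a : κ →₀ ℕ),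
        coeff a (∑ a ∈ p.support, monomial a (D (coeff a p))) = D (coeff a p) := by
      intro p a
      rw [coeff_sum]
      simp only [coeff_monomial]
      rw [Finset.sum_ite_eq']
      split_ifs with h
      · rfl
      · rw [notMem_support_iff.1 h, map_zero]
    ext a
    rw [coeff_add, key, key, key, coeff_add, map_add]

theorem coeff_cd (D : Derivation ℂ K K) (p : MvPolynomial κ K) (a : κ →₀ ℕ) :
    coeff a (cd D p) = D (coeff a p) := by
  classical
  change coeff a (∑ a ∈ p.support, monomial a (D (coeff a p))) = _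
  rw [coeff_sum]
  simp only [coeff_monomial]
  rw [Finset.sum_ite_eq']
  split_ifs with h
  · rfl
  · rw [notMem_support_iff.1 h, map_zero]

theorem cd_mul (D : Derivation ℂ K K) (p q : MvPolynomial κ K) :
    cd D (p * q) = cd D p * q + p * cd D q := by
  classical
  ext a
  rw [coeff_cd, coeff_add, coeff_mul, coeff_mul, coeff_mul, map_sum, ← Finset.sum_add_distrib]
  refine Finset.sum_congr rfl fun x _ => ?_
  rw [coeff_cd, coeff_cd, Derivation.leibniz]
  simp only [smul_eq_mul]; ring

theorem cd_C (D : Derivation ℂ K K) (x : K) : cd D (C x : MvPolynomial κ K) = C (D x) := by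
  classical
  ext a
  rw [coeff_cd, coeff_C, coeff_C]
  split_ifs
  · rfl
  · exact map_zero _

theorem cd_X (D : Derivation ℂ K K) (k : κ) : cd D (X k : MvPolynomial κ K) = 0 := by
  classical
  ext a
  rw [coeff_cd, coeff_X, coeff_zero]
  split_ifs
  · exact Derivation.map_one_eq_zero D
  · exact map_zero _

theorem cd_map (D : Derivation ℂ K K) (c : MvPolynomial κ ℂ) :
    cd D (map (algebraMap ℂ K) c) = 0 := by
  ext a
  rw [coeff_cd, coeff_map, coeff_zero, Derivation.map_algebraMap]

theorem cd_comm {D D' : Derivation ℂ K K} (h : ∀ x, D (D' x) = D' (D x)) (p : MvPolynomial κ K) :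
    cd D (cd D' p) = cd D' (cd D p) := by
  ext a
  rw [coeff_cd, coeff_cd, coeff_cd, coeff_cd, h]

theorem hc_cd (D : Derivation ℂ K K) (s : ℕ) (p : MvPolynomial κ K) :
    homogeneousComponent s (cd D p) = cd D (homogeneousComponent s p) := by
  ext a
  rw [coeff_cd, coeff_homogeneousComponent, coeff_homogeneousComponent, coeff_cd]
  split_ifs
  · rfl
  · rw [map_zero]

omit [Algebra ℂ K] in
theorem hc_mul {ω : MvPolynomial κ K} (hω : ω.IsHomogeneous 1) (s : ℕ) (p : MvPolynomial κ K) :
    homogeneousComponent (s + 1) (ω * p) = ω * homogeneousComponent s p := by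
  induction p using MvPolynomial.induction_on' with
  | monomial d c =>
    have h1 : (monomial d c : MvPolynomial κ K).IsHomogeneous d.degree :=
      isHomogeneous_monomial c rfl
    have h2 : (ω * monomial d c).IsHomogeneous (1 + d.degree) := hω.mul h1
    rw [homogeneousComponent_of_mem h1, homogeneousComponent_of_mem h2]
    by_cases h : s = d.degree
    · rw [if_pos h, if_pos (by omega)]
    · rw [if_neg h, if_neg (by omega), mul_zero]
  | add p q hp hq => rw [mul_add, map_add, hp, hq, map_add, mul_add]

omit [Algebra ℂ K] in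
theorem hc_mul0 {ω : MvPolynomial κ K} (hω : ω.IsHomogeneous 1) (p : MvPolynomial κ K) :
    homogeneousComponent 0 (ω * p) = 0 := by
  induction p using MvPolynomial.induction_on' with
  | monomial d c =>
    have h1 : (monomial d c : MvPolynomial κ K).IsHomogeneous d.degree :=
      isHomogeneous_monomial c rfl
    have h2 : (ω * monomial d c).IsHomogeneous (1 + d.degree) := hω.mul h1
    rw [homogeneousComponent_of_mem h2, if_neg (by omega)]
  | add p q hp hq => rw [mul_add, map_add, hp, hq, add_zero]

end cder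

section red

variable {K ι κ : Type} [Field K] [CharZero K] [Algebra ℂ K] [Fintype ι] [DecidableEq ι]

/-- data -/
structure Dat (K ι κ : Type) [Field K] [Algebra ℂ K] [DecidableEq ι] where
  D : ι → Derivation ℂ K K
  comm : ∀ i j x, D i (D j x) = D j (D i x)
  ω : ι → MvPolynomial κ K
  hom : ∀ i, (ω i).IsHomogeneous 1
  kp : ι → K
  symω : ∀ i j, cd (D i) (ω j) = cd (D j) (ω i)
  symκ : ∀ i j, D i (kp j) = D j (kp i)
  δ : ι → Derivation K (MvPolynomial κ K) (MvPolynomial κ K)
  M : ι → κ → K
  hδ : ∀ j k, δ j (X k) = C (M j k)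
  hω : ∀ i j, δ j (ω i) = if i = j then 1 else 0

variable (T : Dat K ι κ)

/-- twisted derivation -/
noncomputable def th (i : ι) : MvPolynomial κ K →+ MvPolynomial κ K :=
  cd (T.D i) + AddMonoidHom.mulLeft (T.ω i + C (T.kp i))

omit [CharZero K] [Fintype ι] in
theorem th_apply (i : ι) (p : MvPolynomial κ K) :
    th T i p = cd (T.D i) p + (T.ω i + C (T.kp i)) * p := rfl

omit [CharZero K] [Fintype ι] in
theorem th_comm (i j : ι) (p : MvPolynomial κ K) : th T i (th T j p) = th T j (th T i p) := by
  simp only [th_apply, map_add, cd_mul, cd_C]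
  rw [cd_comm (T.comm i j) p, T.symω i j, T.symκ i j]
  ring

omit [CharZero K] [Fintype ι] in
theorem hc_th (i : ι) (s : ℕ) (p : MvPolynomial κ K) :
    homogeneousComponent (s + 1) (th T i p) = cd (T.D i) (homogeneousComponent (s + 1) p) +
      T.ω i * homogeneousComponent s p + C (T.kp i) * homogeneousComponent (s + 1) p := by
  rw [th_apply, map_add, add_mul, map_add, hc_cd, hc_mul (T.hom i), homogeneousComponent_C_mul]
  ring

omit [CharZero K] [Fintype ι] in
theorem hc_th0 (i : ι) (p : MvPolynomial κ K) :
    homogeneousComponent 0 (th T i p) = cd (T.D i) (homogeneousComponent 0 p) +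
      C (T.kp i) * homogeneousComponent 0 p := by
  rw [th_apply, map_add, add_mul, map_add, hc_cd, hc_mul0 (T.hom i), homogeneousComponent_C_mul]
  ring

omit [CharZero K] in
/-- antisymmetric double sums vanish -/
theorem sum_anti [CharZero K] (A : ι → ι → MvPolynomial κ K) (hA : ∀ i j, A i j = -A j i) :
    ∑ i, ∑ j, th T i (th T j (A i j)) = 0 := by
  have h1 : ∑ i, ∑ j, th T i (th T j (A i j)) = -∑ i, ∑ j, th T i (th T j (A i j)) := by
    conv_lhs => rw [Finset.sum_comm]
    rw [← Finset.sum_neg_distrib]
    refine Finset.sum_congr rfl fun i _ => ?_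
    rw [← Finset.sum_neg_distrib]
    refine Finset.sum_congr rfl fun j _ => ?_
    rw [th_comm T j i, hA j i, map_neg, map_neg]
  have h2 : (2 : MvPolynomial κ K) * ∑ i, ∑ j, th T i (th T j (A i j)) = 0 := by
    linear_combination h1
  have h3 : (2 : MvPolynomial κ K) ≠ 0 := by
    have : (2 : MvPolynomial κ K) = C 2 := by
      rw [← MvPolynomial.algebraMap_eq, map_ofNat]
    rw [this, Ne, MvPolynomial.C_eq_zero]
    exact two_ne_zero
  rcases mul_eq_zero.1 h2 with h | h
  · exact absurd h h3
  · exact h

theorem step (c : MvPolynomial κ K) (m : ℕ) (hc : ∀ s, m + 1 ≤ s → homogeneousComponent s c = 0)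
    (h : ι → MvPolynomial κ K) (hh : ∀ i s, m + 1 ≤ s → homogeneousComponent s (h i) = 0)
    (e : c = ∑ i, th T i (h i)) : ∃ h' : ι → MvPolynomial κ K,
    (∀ i s, m ≤ s → homogeneousComponent s (h' i) = 0) ∧ c = ∑ i, th T i (h' i) := by
  have e1 : ∑ i, T.ω i * homogeneousComponent m (h i) = 0 := by
    have := hc (m + 1) le_rfl
    rw [e, map_sum] at this
    rw [← this]
    refine Finset.sum_congr rfl fun i _ => ?_
    rw [hc_th, hh i (m + 1) le_rfl, map_zero]
    ring
  obtain ⟨A, hA, hA'⟩ := koszul T.ω T.δ T.M T.hδ T.hω _ e1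
  rcases Nat.eq_zero_or_pos m with hm | hm
  · subst hm
    refine ⟨h, ?_, e⟩
    intro i s hs
    rcases Nat.eq_zero_or_pos s with h0 | h0
    · subst h0
      have e2 := congrArg (homogeneousComponent 0) (hA' i)
      rw [map_sum] at e2
      have e3 : ∑ j, homogeneousComponent 0 (T.ω j * A i j) = 0 :=
        Finset.sum_eq_zero fun j _ => hc_mul0 (T.hom j) _
      rw [e3, homogeneousComponent_of_mem (homogeneousComponent_mem 0 (h i)), if_pos rfl] at e2
      exact e2
    · exact hh i s h0
  · obtain ⟨n, rfl⟩ : ∃ n, m = n + 1 := ⟨m - 1, by omega⟩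
    set B : ι → ι → MvPolynomial κ K := fun i j => homogeneousComponent n (A i j) with hB
    have hBanti : ∀ i j, B i j = -B j i := by
      intro i j
      simp only [hB]
      rw [hA i j, map_neg]
    have hBs : ∀ i j s, s ≠ n → homogeneousComponent s (B i j) = 0 := by
      intro i j s hs
      simp only [hB]
      rw [homogeneousComponent_of_mem (homogeneousComponent_mem n (A i j)), if_neg hs]
    have hBn : ∀ i j, homogeneousComponent n (B i j) = B i j := by
      intro i j
      simp only [hB]
      rw [homogeneousComponent_of_mem (homogeneousComponent_mem n (A i j)), if_pos rfl]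
    have hB' : ∀ i, homogeneousComponent (n + 1) (h i) = ∑ j, T.ω j * B i j := by
      intro i
      have e2 := congrArg (homogeneousComponent (n + 1)) (hA' i)
      rw [homogeneousComponent_of_mem (homogeneousComponent_mem (n + 1) (h i)), if_pos rfl,
        map_sum] at e2
      rw [e2]
      refine Finset.sum_congr rfl fun j _ => ?_
      rw [hc_mul (T.hom j)]
    refine ⟨fun i => h i - ∑ j, th T j (B i j), ?_, ?_⟩
    · intro i s hs
      obtain ⟨t, rfl⟩ : ∃ t, s = t + 1 := ⟨s - 1, by omega⟩
      rw [map_sub, map_sum]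
      simp only [hc_th]
      rcases Nat.eq_or_lt_of_le hs with hs | hs
      · have ht : t = n := by omega
        subst ht
        rw [hB' i]
        rw [← Finset.sum_sub_distrib]
        refine Finset.sum_eq_zero fun j _ => ?_
        rw [hBs i j (t + 1) (by omega), hBn, map_zero]
        ring
      · rw [hh i (t + 1) (by omega), zero_sub, neg_eq_zero]
        refine Finset.sum_eq_zero fun j _ => ?_
        rw [hBs i j (t + 1) (by omega), hBs i j t (by omega), map_zero]
        ring
    · simp only [map_sub, map_sum]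
      rw [Finset.sum_sub_distrib, sum_anti T B hBanti, sub_zero]
      exact e

theorem descend (c : MvPolynomial κ K) (r : ℕ)
    (hc : ∀ s, r + 1 ≤ s → homogeneousComponent s c = 0) : ∀ (N : ℕ)
    (h : ι → MvPolynomial κ K) (_ : ∀ i s, r + N ≤ s → homogeneousComponent s (h i) = 0)
    (_ : c = ∑ i, th T i (h i)), ∃ h' : ι → MvPolynomial κ K,
    (∀ i s, r ≤ s → homogeneousComponent s (h' i) = 0) ∧ c = ∑ i, th T i (h' i) := by
  intro N
  induction N with
  | zero => intro h hh e; exact ⟨h, hh, e⟩
  | succ N ih =>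
    intro h hh e
    obtain ⟨h1, hh1, e1⟩ := step T c (r + N) (fun s hs => hc s (by omega)) h
      (fun i s hs => hh i s (by omega)) e
    exact ih h1 hh1 e1

theorem descend' (c : MvPolynomial κ K) (r : ℕ)
    (hc : ∀ s, r + 1 ≤ s → homogeneousComponent s c = 0)
    (h : ι → MvPolynomial κ K) (e : c = ∑ i, th T i (h i)) : ∃ h' : ι → MvPolynomial κ K,
    (∀ i s, r ≤ s → homogeneousComponent s (h' i) = 0) ∧ c = ∑ i, th T i (h' i) := by
  refine descend T c r hc ((∑ i, (h i).totalDegree) + 1) h ?_ e
  intro i s hs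
  apply homogeneousComponent_eq_zero
  have := Finset.single_le_sum (f := fun i => (h i).totalDegree) (fun _ _ => Nat.zero_le _)
    (Finset.mem_univ i)
  omega

/-- degree zero -/
theorem red0 (c : MvPolynomial κ K) (hc : ∀ s, 1 ≤ s → homogeneousComponent s c = 0)
    (h : ι → MvPolynomial κ K) (e : c = ∑ i, th T i (h i)) : homogeneousComponent 0 c = 0 := by
  obtain ⟨h', h1, h2⟩ := descend' T c 0 hc h e
  rw [h2, map_sum]
  refine Finset.sum_eq_zero fun i _ => ?_
  rw [hc_th0, h1 i 0 le_rfl, map_zero]
  ring

/-- positive degree -/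
theorem redpos (c : MvPolynomial κ K) (r : ℕ)
    (hc : ∀ s, r + 2 ≤ s → homogeneousComponent s c = 0)
    (h : ι → MvPolynomial κ K) (e : c = ∑ i, th T i (h i)) :
    ∃ g : ι → MvPolynomial κ K, homogeneousComponent (r + 1) c = ∑ i, T.ω i * g i := by
  obtain ⟨h', h1, h2⟩ := descend' T c (r + 1) hc h e
  refine ⟨fun i => homogeneousComponent r (h' i), ?_⟩
  rw [h2, map_sum]
  refine Finset.sum_congr rfl fun i _ => ?_
  rw [hc_th, h1 i (r + 1) le_rfl, map_zero]
  ring

end red

end Pool.Agent.Mono.NV3
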