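import Pool.Agent.Work.Monodromy_helper35.NV3a

/-!
# Block NV3
-/

set_option linter.unusedSectionVars false

namespace Pool.Agent.Mono.NV3

open MvPolynomial

section dvd
variable {κ : Type} [Fintype κ] [DecidableEq κ]

/-- a polynomial which vanishes on the hyperplane `∑ σ = 0` is divisible by `∑ σ` -/
theorem sum_dvd (p : MvPolynomial κ ℂ) (hp : ∀ σ : κ → ℂ, ∑ k, σ k = 0 → eval σ p = 0) :
    ∃ q, p = (∑ k, X k) * q := by
  by_cases hκ : Nonempty κ
  · obtain ⟨k0⟩ := hκ
    set S : MvPolynomial κ ℂ := ∑ k, X k with hS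
    set g : MvPolynomial κ ℂ →ₐ[ℂ] MvPolynomial κ ℂ :=
      aeval (fun k => if k = k0 then X k0 - S else X k) with hg
    have h1 : g p = 0 := by
      apply MvPolynomial.funext
      intro σ
      rw [map_zero, hg]
      have e1 : eval σ (aeval (fun k => if k = k0 then X k0 - S else X k) p) =
          eval (fun k => if k = k0 then σ k0 - ∑ k, σ k else σ k) p := by
        rw [← MvPolynomial.coe_aeval_eq_eval, ← MvPolynomial.coe_aeval_eq_eval]
        change (aeval σ) (aeval _ p) = aeval _ p
        rw [← AlgHom.comp_apply, comp_aeval]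
        congr 2
        funext k
        split_ifs with h
        · rw [map_sub, hS, map_sum]; simp
        · simp
      rw [e1]
      apply hp
      rw [← Finset.add_sum_erase _ _ (Finset.mem_univ k0)]
      rw [if_pos rfl]
      have e2 : ∑ x ∈ Finset.univ.erase k0, (if x = k0 then σ k0 - ∑ k, σ k else σ x) =
          ∑ x ∈ Finset.univ.erase k0, σ x := by
        refine Finset.sum_congr rfl fun x hx => ?_
        rw [if_neg (Finset.ne_of_mem_erase hx)]
      rw [e2]
      have e3 := Finset.add_sum_erase (s := Finset.univ) (fun k => σ k) (Finset.mem_univ k0)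
      rw [← e3]; ring
    have h2 : p - g p ∈ Ideal.span {S} := by
      rw [← Ideal.Quotient.eq]
      have e1 : (Ideal.Quotient.mkₐ ℂ (Ideal.span {S})) =
          (Ideal.Quotient.mkₐ ℂ (Ideal.span {S})).comp g := by
        apply MvPolynomial.algHom_ext
        intro k
        rw [AlgHom.comp_apply, hg, aeval_X]
        change Ideal.Quotient.mk _ _ = Ideal.Quotient.mk _ _
        rw [Ideal.Quotient.eq]
        split_ifs with h
        · subst h
          have : (X k - (X k - S) : MvPolynomial κ ℂ) = S := by ring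
          rw [this]
          exact Ideal.mem_span_singleton_self S
        · rw [sub_self]; exact Submodule.zero_mem _
      exact congrArg (fun f => f p) e1
    rw [h1, sub_zero, Ideal.mem_span_singleton] at h2
    exact h2
  · rw [not_nonempty_iff] at hκ
    refine ⟨0, ?_⟩
    rw [mul_zero]
    apply MvPolynomial.funext
    intro σ
    rw [map_zero]
    apply hp
    simp
end dvd

section conc
variable {ι κ : Type} [Fintype ι] [Fintype κ] [DecidableEq ι] [DecidableEq κ]
  (l : κ → ι → ℂ) (lam : κ → ℂ)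

/-- the linear form in the field -/
noncomputable def Lk (k : κ) : FF ℂ ι := toF ℂ (linF ℂ (l k))

/-- constants -/
noncomputable def cst (c : ℂ) : FF ℂ ι := algebraMap ℂ (FF ℂ ι) c

omit [Fintype ι] [DecidableEq ι] in
theorem toF_C (c : ℂ) : toF ℂ (C c : MvPolynomial ι ℂ) = cst c := by
  unfold toF cst
  rw [← MvPolynomial.algebraMap_eq, ← IsScalarTower.algebraMap_apply]

theorem toF_inj {p q : MvPolynomial ι ℂ} (h : toF ℂ p = toF ℂ q) : p = q :=
  IsFractionRing.injective (MvPolynomial ι ℂ) (FF ℂ ι) h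

theorem linF_ne_zero {v : ι → ℂ} (hv : v ≠ 0) : linF ℂ v ≠ 0 := by
  intro h
  apply hv
  funext i
  have := congrArg (coeff (Finsupp.single i 1)) h
  unfold linF at this
  rw [coeff_sum] at this
  simp only [coeff_C_mul, coeff_X, coeff_zero] at this
  rw [Finset.sum_eq_single i] at this
  · simpa using this
  · intro j _ hj
    rw [if_neg, mul_zero]
    intro h
    exact hj (Finsupp.single_left_injective one_ne_zero h)
  · intro h; exact absurd (Finset.mem_univ i) h

theorem Lk_ne_zero (hl : ∀ k, l k ≠ 0) (k : κ) : Lk l k ≠ 0 := by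
  unfold Lk
  intro h
  apply linF_ne_zero (hl k)
  apply toF_inj
  rw [h]; exact (map_zero (algebraMap (MvPolynomial ι ℂ) (FF ℂ ι))).symm

theorem pderiv_linF {R : Type} [CommRing R] [Algebra ℂ R] (v : ι → ℂ) (i : ι) :
    pderiv i (linF R v) = C (algebraMap ℂ R (v i)) := by
  unfold linF
  rw [map_sum]
  simp only [pderiv_C_mul]
  rw [Finset.sum_eq_single i]
  · rw [pderiv_X_self, mul_one]
  · intro j _ hj
    rw [pderiv_X_of_ne hj, mul_zero]
  · intro h; exact absurd (Finset.mem_univ i) h

theorem dF_Lk (i : ι) (k : κ) : dF ℂ i (Lk l k) = cst (l k i) := by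
  unfold Lk
  rw [dF_toF, pderiv_linF, toF_C]
  rfl

theorem dF_cst (i : ι) (c : ℂ) : dF ℂ i (cst c) = 0 := Derivation.map_algebraMap _ _

theorem pderiv_comm' (i j : ι) (p : MvPolynomial ι ℂ) :
    pderiv i (pderiv j p) = pderiv j (pderiv i p) := by
  have h0 : (⁅(pderiv i : Derivation ℂ (MvPolynomial ι ℂ) (MvPolynomial ι ℂ)),
      (pderiv j : Derivation ℂ (MvPolynomial ι ℂ) (MvPolynomial ι ℂ))⁆) = 0 := by
    apply MvPolynomial.derivation_ext
    intro k
    rw [Derivation.commutator_apply]
    by_cases h1 : k = i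
    · by_cases h2 : k = j
      · subst h1; subst h2; simp
      · subst h1; rw [pderiv_X_of_ne h2]; simp
    · by_cases h2 : k = j
      · subst h2; rw [pderiv_X_of_ne h1]; simp
      · rw [pderiv_X_of_ne h1, pderiv_X_of_ne h2]; simp
  have := congrArg (fun D => D p) h0
  simp only [Derivation.commutator_apply] at this
  exact sub_eq_zero.1 this

theorem dF_comm (i j : ι) (x : FF ℂ ι) : dF ℂ i (dF ℂ j x) = dF ℂ j (dF ℂ i x) := by
  have hD : ∀ p : MvPolynomial ι ℂ, ⁅dF ℂ i, dF ℂ j⁆ (toF ℂ p) = 0 := by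
    intro p
    rw [Derivation.commutator_apply, dF_toF, dF_toF, dF_toF, dF_toF, pderiv_comm', sub_self]
  have hx : ⁅dF ℂ i, dF ℂ j⁆ x = 0 := by
    obtain ⟨a, b, hb, rfl⟩ := IsFractionRing.div_surjective (A := MvPolynomial ι ℂ) x
    have hb' : algebraMap (MvPolynomial ι ℂ) (FF ℂ ι) b ≠ 0 :=
      IsFractionRing.to_map_ne_zero_of_mem_nonZeroDivisors hb
    have h1 := hD a
    have h2 := hD b
    unfold toF at h1 h2
    have h3 : algebraMap (MvPolynomial ι ℂ) (FF ℂ ι) a =
        (algebraMap (MvPolynomial ι ℂ) (FF ℂ ι) a / algebraMap (MvPolynomial ι ℂ) (FF ℂ ι) b) *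
          algebraMap (MvPolynomial ι ℂ) (FF ℂ ι) b := by field_simp
    rw [h3, Derivation.leibniz, h2, smul_zero, zero_add, smul_eq_mul] at h1
    rcases mul_eq_zero.1 h1 with h | h
    · exact absurd h hb'
    · exact h
  rw [Derivation.commutator_apply] at hx
  exact sub_eq_zero.1 hx

theorem dF_div (hl : ∀ k, l k ≠ 0) (i : ι) (k : κ) (c : ℂ) :
    dF ℂ i (cst c / Lk l k) = -(cst c * cst (l k i)) / Lk l k ^ 2 := by
  have h0 := Lk_ne_zero l hl k
  have h1 : cst c = (cst c / Lk l k) * Lk l k := by field_simp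
  have h2 : dF ℂ i (cst c) = dF ℂ i ((cst c / Lk l k) * Lk l k) := by rw [← h1]
  rw [dF_cst, Derivation.leibniz, dF_Lk] at h2
  simp only [smul_eq_mul] at h2
  have h3 : Lk l k * dF ℂ i (cst c / Lk l k) = -(cst c / Lk l k * cst (l k i)) := by
    linear_combination -h2
  have h4 : dF ℂ i (cst c / Lk l k) = -(cst c / Lk l k * cst (l k i)) / Lk l k := by
    rw [← h3]; field_simp
  rw [h4]; field_simp

/-- `ω_i` -/
noncomputable def om (i : ι) : MvPolynomial κ (FF ℂ ι) :=
  ∑ k, C (cst (l k i) / Lk l k) * X k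

/-- `κ_i` -/
noncomputable def kk (i : ι) : FF ℂ ι := ∑ k, cst (lam k) * (cst (l k i) / Lk l k)

theorem exists_dual (hs : Submodule.span ℂ (Set.range l) = ⊤) :
    ∃ N : ι → κ → ℂ, ∀ i j, ∑ k, N j k * l k i = if i = j then 1 else 0 := by
  have h : ∀ j : ι, ∃ c : κ → ℂ, ∑ k, c k • l k = Pi.single j 1 := by
    intro j
    have hm : (Pi.single j 1 : ι → ℂ) ∈ Submodule.span ℂ (Set.range l) := by
      rw [hs]; exact Submodule.mem_top
    rw [Submodule.mem_span_range_iff_exists_fun] at hm
    exact hm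
  choose N hN using h
  refine ⟨N, fun i j => ?_⟩
  have := congrFun (hN j) i
  simp only [Finset.sum_apply, Pi.smul_apply, smul_eq_mul] at this
  rw [this, Pi.single_apply]

/-- the data of an arrangement -/
noncomputable def dat (hl : ∀ k, l k ≠ 0) (N : ι → κ → ℂ)
    (hN : ∀ i j, ∑ k, N j k * l k i = if i = j then 1 else 0) : Dat (FF ℂ ι) ι κ where
  D := dF ℂ
  comm := dF_comm
  ω := om l
  hom i := by
    unfold om
    apply IsHomogeneous.sum
    intro k _
    have := (isHomogeneous_C κ (cst (l k i) / Lk l k)).mul (isHomogeneous_X (FF ℂ ι) k)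
    simpa using this
  kp := kk l lam
  symω i j := by
    unfold om
    rw [map_sum, map_sum]
    refine Finset.sum_congr rfl fun k _ => ?_
    rw [cd_mul, cd_mul, cd_X, cd_X, cd_C, cd_C, dF_div l hl, dF_div l hl, mul_comm (cst (l k i))]
    simp
  symκ i j := by
    unfold kk
    rw [map_sum, map_sum]
    refine Finset.sum_congr rfl fun k _ => ?_
    rw [Derivation.leibniz, Derivation.leibniz, dF_cst, dF_cst, dF_div l hl, dF_div l hl,
      mul_comm (cst (l k i))]
    simp
  δ j := mkDerivation (FF ℂ ι) fun k => C (cst (N j k) * Lk l k)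
  M j k := cst (N j k) * Lk l k
  hδ j k := by rw [mkDerivation_X]
  hω i j := by
    unfold om
    rw [map_sum]
    have e1 : ∀ k, (mkDerivation (FF ℂ ι) fun k => (C (cst (N j k) * Lk l k) :
        MvPolynomial κ (FF ℂ ι))) (C (cst (l k i) / Lk l k) * X k) = C (cst (N j k * l k i)) := by
      intro k
      have h0 := Lk_ne_zero l hl k
      rw [Derivation.leibniz, mkDerivation_X, ← MvPolynomial.algebraMap_eq, Derivation.map_algebraMap,
        smul_zero, add_zero, smul_eq_mul, MvPolynomial.algebraMap_eq, ← C_mul]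
      congr 1
      unfold cst
      rw [map_mul]
      field_simp
    simp only [e1]
    rw [← map_sum]
    have e2 : ∑ k, cst (N j k * l k i) = (cst (∑ k, N j k * l k i) : FF ℂ ι) := by
      unfold cst; rw [map_sum]
    rw [e2, hN]
    split_ifs
    · unfold cst; rw [map_one, C_1]
    · unfold cst; rw [map_zero, C_0]

/-- from polynomials in `y`, `σ` to polynomials in `σ` over the field -/
noncomputable def PhiH : MvPolynomial ι (MvPolynomial κ ℂ) →+* MvPolynomial κ (FF ℂ ι) :=
  eval₂Hom (map (algebraMap ℂ (FF ℂ ι))) fun i => C (toF ℂ (X i))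

theorem PhiH_C (c : MvPolynomial κ ℂ) :
    PhiH (C c : MvPolynomial ι (MvPolynomial κ ℂ)) = map (algebraMap ℂ (FF ℂ ι)) c := by
  unfold PhiH; rw [eval₂Hom_C]

theorem PhiH_X (i : ι) :
    PhiH (X i : MvPolynomial ι (MvPolynomial κ ℂ)) = C (toF ℂ (X i)) := by
  unfold PhiH; rw [eval₂Hom_X']

theorem PhiH_linF (v : ι → ℂ) :
    PhiH (linF (MvPolynomial κ ℂ) v) = C (toF ℂ (linF ℂ v)) := by
  unfold linF
  rw [map_sum]
  have e : toF ℂ (∑ i, C (algebraMap ℂ ℂ (v i)) * X i) =
      ∑ i, cst (v i) * toF ℂ (X i : MvPolynomial ι ℂ) := by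
    unfold toF
    rw [map_sum]
    refine Finset.sum_congr rfl fun i _ => ?_
    rw [map_mul]
    congr 1
  rw [e, map_sum]
  refine Finset.sum_congr rfl fun i _ => ?_
  rw [map_mul, PhiH_C, PhiH_X, C_mul, MvPolynomial.algebraMap_eq, map_C]
  rfl

theorem PhiH_pderiv (i : ι) (q : MvPolynomial ι (MvPolynomial κ ℂ)) :
    PhiH (pderiv i q) = cd (dF ℂ i) (PhiH q) := by
  induction q using MvPolynomial.induction_on with
  | C a =>
    rw [pderiv_C, map_zero, PhiH_C, cd_map]
  | add p q hp hq => rw [map_add, map_add, map_add, map_add, hp, hq]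
  | mul_X p j hp =>
    rw [Derivation.leibniz, map_add, map_mul, cd_mul, ← hp, PhiH_X, cd_C, dF_toF]
    simp only [smul_eq_mul, map_mul, PhiH_X]
    have e : PhiH (pderiv i (X j : MvPolynomial ι (MvPolynomial κ ℂ))) =
        C (toF ℂ (pderiv i (X j))) := by
      by_cases h : j = i
      · subst h
        rw [pderiv_X_self, pderiv_X_self, map_one]
        unfold toF
        rw [map_one, C_1]
      · rw [pderiv_X_of_ne h, pderiv_X_of_ne h, map_zero]
        unfold toF
        rw [map_zero, C_0]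
    rw [e]; ring

end conc

end Pool.Agent.Mono.NV3
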